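import Pool.Agent.H29.TC.Targets

/-!
# (EX) the ideal `e` exists.
-/

set_option autoImplicit false

open NumberField
open scoped nonZeroDivisors

namespace Pool.Agent.H34.TC

open Pool.Agent.H25.HK Pool.Agent.H28.RC Pool.Agent.H23.LB Pool.Agent.H29.TC

/-- the integral ideal `(h) I⁻¹` -/
theorem ex_quot (K : Type) [Field K] [NumberField K] (I : FI K) (hI : I ≠ 0) (h : K)
    (hh : h ∈ I) : ∃ e₀ : Ideal (𝓞 K), ∀ J : Ideal (𝓞 K), h ∈ (J : FI K) * I ↔ e₀ ≤ J := by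
  have h1 : FractionalIdeal.spanSingleton (𝓞 K)⁰ h ≤ I :=
    (FractionalIdeal.spanSingleton_le_iff_mem).2 hh
  have h2 : FractionalIdeal.spanSingleton (𝓞 K)⁰ h * I⁻¹ ≤ 1 := by
    calc FractionalIdeal.spanSingleton (𝓞 K)⁰ h * I⁻¹ ≤ I * I⁻¹ := mul_le_mul_left h1 _
      _ = 1 := mul_inv_cancel₀ hI
  obtain ⟨e₀, he₀⟩ := FractionalIdeal.le_one_iff_exists_coeIdeal.1 h2
  have h3 : (e₀ : FI K) * I = FractionalIdeal.spanSingleton (𝓞 K)⁰ h := by
    rw [he₀, mul_assoc, inv_mul_cancel₀ hI, mul_one]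
  refine ⟨e₀, fun J => ?_⟩
  rw [← FractionalIdeal.spanSingleton_le_iff_mem, ← h3]
  constructor
  · intro h4
    have h5 : ((e₀ : FI K) * I) * I⁻¹ ≤ ((J : FI K) * I) * I⁻¹ := mul_le_mul_left h4 _
    rw [mul_assoc, mul_assoc, mul_inv_cancel₀ hI, mul_one, mul_one] at h5
    exact (FractionalIdeal.coeIdeal_le_coeIdeal K).1 h5
  · intro h4
    exact mul_le_mul_left ((FractionalIdeal.coeIdeal_le_coeIdeal K).2 h4) _

theorem pf_EX : T_EX := by
  intro K _ _ g k hg hk M hM h hh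
  have hI : (g : FI K) * M ≠ 0 := mul_ne_zero (FractionalIdeal.coeIdeal_ne_zero.2 hg) hM
  obtain ⟨e₀, he₀⟩ := ex_quot K ((g : FI K) * M) hI h hh
  have key : ∀ J : Ideal (𝓞 K), ((g * J : Ideal (𝓞 K)) : FI K) * M =
      (J : FI K) * ((g : FI K) * M) := by
    intro J
    rw [FractionalIdeal.coeIdeal_mul]
    ring
  refine ⟨e₀ ⊔ k, le_sup_right, ?_, ?_, ?_⟩
  · rw [key, he₀]
    exact le_sup_left
  · intro e' hke' hhe'
    rw [key, he₀] at hhe'
    exact sup_le hhe' hke'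
  · intro l hl hhl
    have e1 : (l * g : Ideal (𝓞 K)) = g * l := mul_comm _ _
    have e2 : (l * g * (e₀ ⊔ k) : Ideal (𝓞 K)) = g * (l * (e₀ ⊔ k)) := by ring
    rw [e1, key, he₀] at hhl
    rw [e2, key, he₀]
    have h6 : l ⊔ (e₀ ⊔ k) = ⊤ := by
      rw [eq_top_iff, ← hl]
      exact sup_le_sup_left le_sup_right l
    rw [Ideal.mul_eq_inf_of_isCoprime (Ideal.isCoprime_iff_sup_eq.2 h6)]
    exact le_inf hhl le_sup_left

end Pool.Agent.H34.TC
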